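import Mathlib

namespace Pool.Agent.H.MP_582e4a_co

open Finset

lemma H1 (t y w v : ℝ) (hy : y ≤ t) (ht : t ≤ 1 / 2) (hw : 0 ≤ w) (hv : 0 ≤ v)
    (hs : t + y + w + v = 1) (hx : 3 * (1 - t) ≤ 8 * y) :
    0 ≤ 3 * ((1 - 2 * t) * (t - y) + v * (1 - 4 * y * w)) + t * (1 - 2 * t) - y * (1 + 2 * y)
      + 11 / 10 - v - v * (2 * y + 7 / 6 * (w + y) + 8 * w) - 8 / 3 * w ^ 2 := by
  have h1 : 0 ≤ (1 - 2 * t) * (t - y) := mul_nonneg (by linarith) (by linarith)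
  obtain rfl : t = 1 - y - w - v := by linarith
  have hy0 : 0 ≤ y := by linarith
  nlinarith [mul_nonneg hv hw, mul_nonneg hv hy0, mul_nonneg hw hy0, mul_nonneg hv (mul_nonneg hw hw),
    mul_nonneg hv (mul_nonneg hw (sub_nonneg.2 hy)), mul_nonneg hw (sub_nonneg.2 hy),
    mul_nonneg hv (sub_nonneg.2 hy), mul_nonneg hy0 (sub_nonneg.2 hy), mul_nonneg hw (sub_nonneg.2 hx),
    mul_nonneg hv (sub_nonneg.2 hx), mul_nonneg (sub_nonneg.2 hy) (sub_nonneg.2 hx),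
    mul_nonneg hv (sq_nonneg (w - y)), mul_nonneg hv (mul_nonneg hv hw), sq_nonneg (v - 1/10), sq_nonneg (w - 4 * v)]

lemma H2 (t y w v : ℝ) (hy : y ≤ t) (ht : t ≤ 1 / 2) (hw : 0 ≤ w) (hv : 0 ≤ v)
    (hs : t + y + w + v = 1) (hx : (1 - t) ≤ 4 * y) :
    0 ≤ 5 * ((1 - 2 * t) * (t - y) + v * (1 - 4 * y * w)) + t * (1 - 2 * t) - y * (1 + 2 * y)
      + 17 / 14 - v - v * (2 * y + 7 / 6 * (w + y) + 36 / 5 * w) - 12 / 5 * w ^ 2 := by
  have h1 : 0 ≤ (1 - 2 * t) * (t - y) := mul_nonneg (by linarith) (by linarith)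
  obtain rfl : t = 1 - y - w - v := by linarith
  have hy0 : 0 ≤ y := by linarith
  nlinarith [mul_nonneg hv hw, mul_nonneg hv hy0, mul_nonneg hw hy0, mul_nonneg hv (mul_nonneg hw hw),
    mul_nonneg hv (mul_nonneg hw (sub_nonneg.2 hy)), mul_nonneg hw (sub_nonneg.2 hy),
    mul_nonneg hv (sub_nonneg.2 hy), mul_nonneg hy0 (sub_nonneg.2 hy), mul_nonneg hw (sub_nonneg.2 hx),
    mul_nonneg hv (sub_nonneg.2 hx), mul_nonneg (sub_nonneg.2 hy) (sub_nonneg.2 hx),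
    mul_nonneg hv (sq_nonneg (w - y)), mul_nonneg hv (mul_nonneg hv hw), sq_nonneg (v - 1/10), sq_nonneg (w - 4 * v)]

lemma le_of_sq_le_sq_left_aux {a b : ℝ} (hb : 0 ≤ b) (h : a ^ 2 ≤ b ^ 2) : a ≤ b :=
  (abs_le_of_sq_le_sq' h hb).2

/-- The scalar inequality of case 2. -/
lemma scal (m t a c v : ℝ) (hm : m = 3 ∨ m = 4 ∨ 5 ≤ m) (ha : 0 ≤ a) (hc : 0 ≤ c)
    (hy : a ^ 2 ≤ t) (ht : t ≤ 1 / 2) (hv : 0 ≤ v) (hs : t + a ^ 2 + m * c ^ 2 + v = 1)
    (hx : (1 - t) * (m + 2) ≤ 4 * a ^ 2 * m) :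
    (a + m * c) ^ 2 + 2 * (m + 1) * (t ^ 2 + a ^ 4 + (a ^ 2 + 2 * c * a + 3 * c ^ 2) * v
      + m * c ^ 4) ≤ m + t + 2 * (m + 1) / (m + 2) := by
  have hm3 : 3 ≤ m := by rcases hm with h | h | h <;> linarith
  set y := a ^ 2 with hyd
  set w := m * c ^ 2 with hwd
  set s := a * c with hsd
  have hw : 0 ≤ w := by positivity
  have hy0 : 0 ≤ y := by positivity
  have hs0 : 0 ≤ s := by positivity
  have e1 : m * s ^ 2 = y * w := by simp only [hyd, hwd, hsd]; ring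
  have b1 : 2 * (m * s) ≤ 2 * (m * (y * w)) + 1 / 2 := by
    rw [← e1]; nlinarith [sq_nonneg (m * s - 1 / 2)]
  have b2 : 4 * s ≤ 7 / 6 * (w + y) := by
    apply le_of_sq_le_sq_left_aux
    · positivity
    · nlinarith [sq_nonneg (y - w), sq_nonneg s, mul_nonneg hw hy0]
  have hyw : 4 * y * w ≤ 1 := by nlinarith [sq_nonneg (y - w)]
  have hP : 0 ≤ (1 - 2 * t) * (t - y) + v * (1 - 4 * y * w) :=
    add_nonneg (mul_nonneg (by linarith) (by linarith)) (mul_nonneg hv (by linarith))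
  have key : ∀ m0 κ γ : ℝ, m0 ≤ m → κ ≤ 2 * (m + 1) / (m + 2) → (m + 1) * c ^ 2 ≤ γ * w →
      0 ≤ m0 * ((1 - 2 * t) * (t - y) + v * (1 - 4 * y * w)) + t * (1 - 2 * t) - y * (1 + 2 * y)
      + (κ - 1 / 2) - v - v * (2 * y + 7 / 6 * (w + y) + 6 * γ * w) - 2 * γ * w ^ 2 →
      (a + m * c) ^ 2 + 2 * (m + 1) * (t ^ 2 + a ^ 4 + (a ^ 2 + 2 * c * a + 3 * c ^ 2) * v
      + m * c ^ 4) ≤ m + t + 2 * (m + 1) / (m + 2) := by
    intro m0 κ γ h1 h2 h3 h4
    have f1 : (a + m * c) ^ 2 + 2 * (m + 1) * (t ^ 2 + a ^ 4 + (a ^ 2 + 2 * c * a + 3 * c ^ 2) * v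
        + m * c ^ 4) = y + 2 * (m * s) * (1 + 2 * v) + m * w + 2 * (m + 1) * (t ^ 2 + y ^ 2 + y * v)
        + 4 * s * v + ((m + 1) * c ^ 2) * (6 * v + 2 * w) := by
      simp only [hyd, hwd, hsd]; ring
    have f2 := mul_le_mul_of_nonneg_right b1 (show 0 ≤ 1 + 2 * v by linarith)
    have f3 := mul_le_mul_of_nonneg_right b2 hv
    have f4 := mul_le_mul_of_nonneg_right h3 (show 0 ≤ 6 * v + 2 * w by linarith)
    have f5 := mul_le_mul_of_nonneg_right h1 hP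
    have f6 : m * ((1 - 2 * t) * (t - y) + v * (1 - 4 * y * w)) =
        m - m * w - 2 * m * (t ^ 2 + y ^ 2 + y * v) - 2 * (m * (y * w)) * (1 + 2 * v) := by
      have : t = 1 - y - w - v := by linarith
      rw [this]; ring
    rw [f1]
    nlinarith
  have hc2 : 0 ≤ c ^ 2 := by positivity
  rcases le_or_gt m 4 with h4 | h4
  · refine key 3 (8 / 5) (4 / 3) hm3 ?_ ?_ ?_
    · rw [le_div_iff₀ (by linarith)]; linarith
    · simp only [hwd]; nlinarith
    · have := H1 t y w v hy ht hw hv hs (by nlinarith)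
      linarith
  · have h5 : 5 ≤ m := by rcases hm with h | h | h <;> linarith
    refine key 5 (12 / 7) (6 / 5) h5 ?_ ?_ ?_
    · rw [le_div_iff₀ (by linarith)]; linarith
    · simp only [hwd]; nlinarith
    · have := H2 t y w v hy ht hw hv hs (by nlinarith)
      linarith

lemma pairs {ι : Type*} (T : Finset ι) (f : ι → ℝ) :
    ∑ u ∈ T, ∑ w ∈ T, (f u - f w) ^ 2 = 2 * (T.card * ∑ u ∈ T, f u ^ 2 - (∑ u ∈ T, f u) ^ 2) := by
  have : ∀ u w, (f u - f w) ^ 2 = f u ^ 2 + f w ^ 2 - 2 * (f u * f w) := fun u w => by ring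
  simp only [this, sum_sub_distrib, sum_add_distrib, sum_const, nsmul_eq_mul, ← mul_sum, ← sum_mul]
  ring

/-- The vector inequality. -/
lemma vec {ι : Type*} [DecidableEq ι] (T : Finset ι) (z : ι → ℝ) (t : ℝ) (hT : T.Nonempty)
    (h0 : ∀ u ∈ T, 0 ≤ z u) (h1 : ∀ u ∈ T, z u ^ 2 ≤ t) (ht : t ≤ 1 / 2)
    (hs : ∑ u ∈ T, z u ^ 2 = 1 - t) :
    (∑ u ∈ T, z u) ^ 2 + 2 * T.card * (t ^ 2 + ∑ u ∈ T, z u ^ 4) ≤
      T.card - (1 - t) + 2 * T.card / (T.card + 1) := by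
  have hk : (1 : ℝ) ≤ T.card := by exact_mod_cast hT.card_pos
  by_cases hc : ∀ u ∈ T, ∀ w ∈ T, u ≠ w →
      ((T.card : ℝ) - 1) * (z u + z w) ^ 2 ≤ (1 - t) * (T.card + 1)
  · set k : ℝ := (T.card : ℝ) with hkd
    have p1 := pairs T z
    have p2 := pairs T fun u => z u ^ 2
    have p3 : (k - 1) * ∑ u ∈ T, ∑ w ∈ T, (z u ^ 2 - z w ^ 2) ^ 2 ≤
        (1 - t) * (k + 1) * ∑ u ∈ T, ∑ w ∈ T, (z u - z w) ^ 2 := by
      simp only [mul_sum]
      refine sum_le_sum fun u hu => sum_le_sum fun w hw => ?_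
      by_cases e : u = w
      · simp [e]
      · have := mul_le_mul_of_nonneg_right (hc u hu w hw e) (sq_nonneg (z u - z w))
        nlinarith
    have p4 : ∑ u ∈ T, (z u ^ 2) ^ 2 ≤ t * (1 - t) := by
      rw [← hs, mul_sum]
      exact sum_le_sum fun u hu => by nlinarith [h1 u hu, sq_nonneg (z u)]
    have p5 : ∑ u ∈ T, z u ^ 4 = ∑ u ∈ T, (z u ^ 2) ^ 2 := sum_congr rfl fun u _ => by ring
    rw [p1, p2, hs, ← hkd] at p3
    rw [p5]
    set Q := ∑ u ∈ T, (z u ^ 2) ^ 2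
    set S := (∑ u ∈ T, z u) ^ 2
    have hσ : 0 < (1 - t) * (k + 1) := mul_pos (by linarith) (by linarith)
    have q1 : k * Q - (1 - t) ^ 2 ≤ (1 - t) * ((k + 1) * t - 1) := by nlinarith
    have q2 := mul_le_mul_of_nonneg_right q1
      (show 0 ≤ 2 * ((1 - t) * (k + 1)) - (k - 1) by nlinarith)
    have q3 : (2 * (k * Q - (1 - t) ^ 2) - (k * (1 - t) - S)) * (k + 1) ≤
        ((k + 1) * t - 1) * (2 * ((1 - t) * (k + 1)) - (k - 1)) := by
      have h1t : 0 < 1 - t := by linarith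
      apply le_of_mul_le_mul_left _ h1t
      nlinarith
    rw [← sub_le_iff_le_add', le_div_iff₀ (by linarith)]
    nlinarith
  · push Not at hc
    obtain ⟨u, hu, w, hw, hne, hlt⟩ := hc
    obtain ⟨i, hi, hmax⟩ := exists_max_image T z hT
    have hcard : T.card = (T.erase i).card + 1 := (card_erase_add_one hi).symm
    set Z := T.erase i with hZ
    set m : ℝ := (Z.card : ℝ) with hmd
    have hkm : (T.card : ℝ) = m + 1 := by rw [hcard]; push_cast; rfl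
    have huw : z u ^ 2 + z w ^ 2 ≤ 1 - t := by
      rw [← hs, ← sum_pair (f := fun u => z u ^ 2) hne]
      exact sum_le_sum_of_subset_of_nonneg (by intro x; simp; rintro (rfl | rfl) <;> assumption)
        fun x _ _ => sq_nonneg _
    rw [hkm] at hlt ⊢
    have hm0 : 0 ≤ m := by positivity
    have hm2 : 2 < m := by
      by_contra hh
      have a1 : (z u + z w) ^ 2 ≤ 2 * (1 - t) := by nlinarith [sq_nonneg (z u - z w)]
      nlinarith [mul_le_mul_of_nonneg_left a1 hm0]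
    have hm : m = 3 ∨ m = 4 ∨ 5 ≤ m := by
      have : 2 < Z.card := by exact_mod_cast (show (2 : ℝ) < (Z.card : ℝ) from hm2)
      rcases (show Z.card = 3 ∨ Z.card = 4 ∨ 5 ≤ Z.card by omega) with h | h | h
      · left; rw [hmd, h]; norm_num
      · right; left; rw [hmd, h]; norm_num
      · right; right; rw [hmd]; exact_mod_cast h
    set a := z i with had
    have ha : 0 ≤ a := h0 i hi
    have hx : (1 - t) * (m + 2) ≤ 4 * a ^ 2 * m := by
      have a1 : (z u + z w) ^ 2 ≤ 4 * a ^ 2 := by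
        nlinarith [hmax u hu, hmax w hw, h0 u hu, h0 w hw]
      nlinarith [mul_le_mul_of_nonneg_left a1 hm0]
    set c := (∑ u ∈ Z, z u) / m with hcd
    have hc0 : 0 ≤ c := div_nonneg (sum_nonneg fun x hx => h0 x (mem_of_mem_erase hx)) hm0
    have e1 : ∑ u ∈ Z, z u = m * c := by rw [hcd]; field_simp
    have e2 : ∑ u ∈ Z, z u ^ 2 = 1 - t - a ^ 2 := by
      rw [← hs, ← add_sum_erase T _ hi]; ring
    set v := 1 - t - a ^ 2 - m * c ^ 2 with hvd
    have hv : 0 ≤ v := by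
      have p1 := pairs Z z
      have p2 : 0 ≤ ∑ u ∈ Z, ∑ w ∈ Z, (z u - z w) ^ 2 :=
        sum_nonneg fun _ _ => sum_nonneg fun _ _ => sq_nonneg _
      rw [p1, e1, e2, ← hmd] at p2
      apply le_of_mul_le_mul_left _ (show 0 < m by linarith)
      simp only [hvd]; nlinarith
    have e3 : ∑ u ∈ Z, z u ^ 4 ≤ (a ^ 2 + 2 * c * a + 3 * c ^ 2) * v + m * c ^ 4 := by
      have : ∑ u ∈ Z, z u ^ 4 ≤ ∑ u ∈ Z, ((a ^ 2 + 2 * c * a + 3 * c ^ 2) * z u ^ 2
          - 2 * c * (c + a) ^ 2 * z u + c ^ 2 * a * (a + 2 * c)) := by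
        refine sum_le_sum fun x hx => ?_
        have b1 := hmax x (mem_of_mem_erase hx)
        have b2 := h0 x (mem_of_mem_erase hx)
        have := mul_nonneg (mul_nonneg (sub_nonneg.2 b1) (sq_nonneg (z x - c)))
          (show 0 ≤ z x + a + 2 * c by linarith)
        nlinarith
      rw [sum_add_distrib, sum_sub_distrib, ← mul_sum, ← mul_sum, e1, e2, sum_const,
        nsmul_eq_mul, ← hmd] at this
      refine this.trans (le_of_eq ?_)
      simp only [hvd]; ring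
    have := scal m t a c v hm ha hc0 (h1 i hi) ht hv (by simp only [hvd]; ring) hx
    rw [← add_sum_erase T _ hi, ← add_sum_erase T (fun u => z u ^ 4) hi, ← hZ, e1]
    have e4 := mul_le_mul_of_nonneg_left e3 (show 0 ≤ 2 * (m + 1) by linarith)
    rw [show m + 1 + 1 = m + 2 by ring]
    simp only [← had]
    nlinarith

end Pool.Agent.H.MP_582e4a_co
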