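import Pool.Agent.H.MP_582e4a_co.A

namespace Pool.Agent.H.MP_582e4a_co

open Finset

variable {V : Type*} [Fintype V] [DecidableEq V] {G : SimpleGraph V} [DecidableRel G.Adj]

/-- An orthonormal eigenbasis in coordinates. -/
structure Eig (G : SimpleGraph V) [DecidableRel G.Adj] (U : V → V → ℝ) (l : V → ℝ) : Prop where
  col : ∀ i j, ∑ v, U v i * U v j = if i = j then 1 else 0
  row : ∀ u v, ∑ i, U u i * U v i = if u = v then 1 else 0
  eig : ∀ i v, ∑ w, G.adjMatrix ℝ v w * U w i = l i * U v i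

variable {U : V → V → ℝ} {l : V → ℝ}

lemma a_nonneg (u w : V) : 0 ≤ G.adjMatrix ℝ u w := by
  rw [SimpleGraph.adjMatrix_apply]; split_ifs <;> norm_num

lemma a_le (u w : V) : G.adjMatrix ℝ u w ≤ 1 := by
  rw [SimpleGraph.adjMatrix_apply]; split_ifs <;> norm_num

lemma a_sq (u w : V) : G.adjMatrix ℝ u w * G.adjMatrix ℝ u w = G.adjMatrix ℝ u w := by
  rw [SimpleGraph.adjMatrix_apply]; split_ifs <;> norm_num

lemma a_diag (u : V) : G.adjMatrix ℝ u u = 0 := by simp

lemma a_symm (u w : V) : G.adjMatrix ℝ u w = G.adjMatrix ℝ w u := by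
  simp [SimpleGraph.adjMatrix_apply, G.adj_comm]

lemma Eig.expand (h : Eig G U l) (z : V → ℝ) (u : V) :
    z u = ∑ i, U u i * ∑ v, U v i * z v := by
  simp only [mul_sum]
  rw [sum_comm]
  simp only [← mul_assoc, ← sum_mul, h.row]
  simp

lemma Eig.expandA (h : Eig G U l) (z : V → ℝ) (u : V) :
    ∑ w, G.adjMatrix ℝ u w * z w = ∑ i, l i * U u i * ∑ v, U v i * z v := by
  calc ∑ w, G.adjMatrix ℝ u w * z w
      = ∑ w, ∑ i, G.adjMatrix ℝ u w * U w i * ∑ v, U v i * z v := by
        refine sum_congr rfl fun w _ => ?_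
        conv_lhs => rw [h.expand z w]
        rw [mul_sum]
        exact sum_congr rfl fun i _ => by ring
    _ = _ := by
        rw [sum_comm]
        exact sum_congr rfl fun i _ => by rw [← sum_mul, h.eig]

lemma Eig.ray (h : Eig G U l) {ρ : ℝ} (hρ : ∀ i, l i ≤ ρ) (z : V → ℝ)
    (hz : ρ * ∑ u, z u ^ 2 ≤ ∑ u, z u * ∑ w, G.adjMatrix ℝ u w * z w) (u : V) :
    ∑ w, G.adjMatrix ℝ u w * z w = ρ * z u := by
  set c : V → ℝ := fun i => ∑ v, U v i * z v with hc
  have e1 : ∑ u, z u ^ 2 = ∑ i, c i ^ 2 := by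
    calc ∑ u, z u ^ 2 = ∑ u, ∑ i, U u i * z u * c i := by
          refine sum_congr rfl fun u _ => ?_
          rw [sq]
          conv_lhs => enter [2]; rw [h.expand z u]
          rw [mul_sum]
          exact sum_congr rfl fun i _ => by ring
      _ = _ := by
          rw [sum_comm]
          exact sum_congr rfl fun i _ => by rw [← sum_mul, sq]
  have e2 : ∑ u, z u * ∑ w, G.adjMatrix ℝ u w * z w = ∑ i, l i * c i ^ 2 := by
    calc ∑ u, z u * ∑ w, G.adjMatrix ℝ u w * z w = ∑ u, ∑ i, U u i * z u * (l i * c i) := by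
          refine sum_congr rfl fun u _ => ?_
          rw [h.expandA, mul_sum]
          exact sum_congr rfl fun i _ => by ring
      _ = _ := by
          rw [sum_comm]
          exact sum_congr rfl fun i _ => by rw [← sum_mul]; ring
  rw [e1, e2, mul_sum] at hz
  have e3 : ∀ i ∈ univ, l i * c i ^ 2 = ρ * c i ^ 2 :=
    (sum_eq_sum_iff_of_le fun i _ => mul_le_mul_of_nonneg_right (hρ i) (sq_nonneg _)).1
      (le_antisymm (sum_le_sum fun i _ => mul_le_mul_of_nonneg_right (hρ i) (sq_nonneg _)) hz)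
  rw [h.expandA]
  conv_rhs => rw [h.expand z u]
  rw [mul_sum]
  refine sum_congr rfl fun i hi => ?_
  have := e3 i hi
  change l i * U u i * c i = ρ * (U u i * c i)
  by_cases hci : c i = 0
  · simp [hci]
  · rw [mul_right_cancel₀ (pow_ne_zero 2 hci) this]; ring

lemma Eig.abs (h : Eig G U l) {ρ : ℝ} (hρ : ∀ i, l i ≤ ρ) (z : V → ℝ)
    (hz : ∀ u, ∑ w, G.adjMatrix ℝ u w * z w = ρ * z u) (u : V) :
    ∑ w, G.adjMatrix ℝ u w * |z w| = ρ * |z u| := by
  refine h.ray hρ (fun u => |z u|) ?_ u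
  rw [mul_sum]
  refine sum_le_sum fun u _ => ?_
  calc ρ * |z u| ^ 2 = ∑ w, z u * (G.adjMatrix ℝ u w * z w) := by
        rw [← mul_sum, hz, sq_abs]; ring
    _ ≤ _ := by
        rw [mul_sum]
        refine sum_le_sum fun w _ => ?_
        have := mul_le_mul_of_nonneg_left (le_abs_self (z u * z w)) (a_nonneg (G := G) u w)
        rw [abs_mul] at this
        nlinarith

lemma Eig.zero (h : Eig G U l) (hG : G.Connected) {ρ : ℝ} (hρ : ∀ i, l i ≤ ρ) (z : V → ℝ)
    (hz : ∀ u, ∑ w, G.adjMatrix ℝ u w * z w = ρ * z u) {v : V} (hv : z v = 0) (u : V) :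
    z u = 0 := by
  obtain ⟨p⟩ := hG.preconnected v u
  induction p with
  | nil => exact hv
  | @cons a b c hab p ih =>
    apply ih
    have e := h.abs hρ z hz a
    rw [hv, abs_zero, mul_zero] at e
    have := (sum_eq_zero_iff_of_nonneg fun w _ =>
      mul_nonneg (a_nonneg (G := G) a w) (abs_nonneg (z w))).1 e b (mem_univ _)
    simpa [SimpleGraph.adjMatrix_apply, hab] using this

/-- The combinatorial inequality for the Perron vector. -/
lemma perron (hd : ∀ v, 1 ≤ ∑ w, G.adjMatrix ℝ v w) (hn : 2 ≤ Fintype.card V) (x : V → ℝ) (ρ : ℝ)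
    (hx : ∀ v, 0 < x v) (h1 : ∑ v, x v ^ 2 = 1)
    (he : ∀ u, ∑ w, G.adjMatrix ℝ u w * x w = ρ * x u) :
    (Fintype.card V : ℝ) - 1 ≤ ∑ v, ∑ w, G.adjMatrix ℝ v w - ρ ^ 2 ∧
    ∑ v, (∑ w, G.adjMatrix ℝ v w) * x v ^ 2 + 2 * ((Fintype.card V : ℝ) - 1) * ∑ v, x v ^ 4 ≤
      ((Fintype.card V : ℝ) - 1) * (1 + 2 / Fintype.card V) := by
  set μ : V → ℝ := fun v => ∑ w, G.adjMatrix ℝ v w * x w ^ 2 with hμ
  have hW : ∑ v, (∑ w, G.adjMatrix ℝ v w) * x v ^ 2 = ∑ v, μ v := by
    simp only [hμ, sum_mul]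
    rw [sum_comm]
    exact sum_congr rfl fun v _ => sum_congr rfl fun w _ => by rw [a_symm]
  have hμ1 : ∀ v, μ v ≤ 1 - x v ^ 2 := fun v => by
    rw [← h1, ← add_sum_erase _ _ (mem_univ v), add_sub_cancel_left]
    simp only [hμ]
    rw [← add_sum_erase _ _ (mem_univ v), a_diag, zero_mul, zero_add]
    exact sum_le_sum fun w _ => by nlinarith [a_le (G := G) v w, sq_nonneg (x w)]
  have hcs : ∀ v, (ρ * x v) ^ 2 ≤ (∑ w, G.adjMatrix ℝ v w) * μ v := fun v => by
    rw [← he]
    have := sum_mul_sq_le_sq_mul_sq univ (fun w => G.adjMatrix ℝ v w)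
      (fun w => G.adjMatrix ℝ v w * x w)
    simp only [← mul_assoc, a_sq, mul_pow, sq (G.adjMatrix ℝ v _)] at this
    exact this
  constructor
  · have : ∑ v, (ρ * x v) ^ 2 ≤ ∑ v, (∑ w, G.adjMatrix ℝ v w -
        (∑ w, G.adjMatrix ℝ v w) * x v ^ 2 - (1 - x v ^ 2 - μ v)) :=
      sum_le_sum fun v _ => by nlinarith [hcs v, hd v, hμ1 v]
    simp only [mul_pow, ← mul_sum, sum_sub_distrib, h1, hW, sum_const, card_univ,
      nsmul_eq_mul] at this
    linarith
  · have : Nonempty V := Fintype.card_pos_iff.1 (by omega)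
    obtain ⟨h, -, hmax⟩ := exists_max_image univ x univ_nonempty
    have hρ : 0 < ρ := by
      have : 0 < ρ * x h := by
        rw [← he]
        by_contra hc
        have e := (sum_eq_zero_iff_of_nonneg fun w _ =>
          mul_nonneg (a_nonneg (G := G) h w) (hx w).le).1
            (le_antisymm (not_lt.1 hc) (sum_nonneg fun w _ =>
              mul_nonneg (a_nonneg (G := G) h w) (hx w).le))
        have : ∑ w, G.adjMatrix ℝ h w = 0 := sum_eq_zero fun w hw =>
          (mul_eq_zero.1 (e w hw)).resolve_right (hx w).ne'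
        linarith [hd h]
      exact (pos_iff_pos_of_mul_pos this).2 (hx h)
    have hM := hx h
    have ht : x h ^ 2 ≤ 1 / 2 := by
      have e1 : ∑ w, G.adjMatrix ℝ h w * x h ≤ ∑ w, G.adjMatrix ℝ h w * (ρ * x w) := by
        refine sum_le_sum fun w _ => ?_
        rw [← he]
        have := single_le_sum (f := fun u => G.adjMatrix ℝ w u * x u)
          (fun u _ => mul_nonneg (a_nonneg w u) (hx u).le) (mem_univ h)
        have := mul_le_mul_of_nonneg_left this (a_nonneg (G := G) h w)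
        rwa [a_symm w h, ← mul_assoc, a_sq] at this
      have e2 : ∑ w, G.adjMatrix ℝ h w * (ρ * x w) = ρ * (ρ * x h) := by
        rw [← he, mul_sum]; exact sum_congr rfl fun w _ => by ring
      rw [e2, ← sum_mul] at e1
      have e3 : ∑ w, G.adjMatrix ℝ h w ≤ ρ ^ 2 := le_of_mul_le_mul_right (by linarith) hM
      have e4 := hcs h
      have e5 := mul_le_mul_of_nonneg_left (hμ1 h) (show 0 ≤ ∑ w, G.adjMatrix ℝ h w by linarith [hd h])
      have e6 := mul_le_mul_of_nonneg_right e3 (sq_nonneg (x h))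
      have e7 : (∑ w, G.adjMatrix ℝ h w) * x h ^ 2 ≤ (∑ w, G.adjMatrix ℝ h w) * (1 - x h ^ 2) := by
        nlinarith
      have := le_of_mul_le_mul_left e7 (by linarith [hd h])
      linarith
    set T := univ.erase h with hT
    have hc : (T.card : ℝ) = Fintype.card V - 1 := by
      rw [hT, card_erase_of_mem (mem_univ h), card_univ, Nat.cast_sub (by omega)]; simp
    have hne : T.Nonempty := by
      rw [← card_pos, hT, card_erase_of_mem (mem_univ h), card_univ]; omega
    have hs : ∑ u ∈ T, x u ^ 2 = 1 - x h ^ 2 := by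
      rw [← h1, ← add_sum_erase _ _ (mem_univ h)]; ring
    have hv := vec T x (x h ^ 2) hne (fun u _ => (hx u).le)
      (fun u _ => pow_le_pow_left₀ (hx u).le (hmax u (mem_univ _)) 2) ht hs
    have hs0 : 0 ≤ ∑ u ∈ T, x u := sum_nonneg fun u _ => (hx u).le
    have b1 : ρ * x h ≤ ∑ u ∈ T, x u := by
      rw [← he, ← add_sum_erase _ _ (mem_univ h), a_diag, zero_mul, zero_add]
      exact sum_le_sum fun w _ => by nlinarith [a_le (G := G) h w, hx w]
    have b2 : ∑ u ∈ T, μ u ≤ ρ * x h * ∑ u ∈ T, x u := by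
      rw [mul_sum]
      refine sum_le_sum fun u _ => ?_
      rw [show ρ * x h * x u = x h * (ρ * x u) by ring, ← he, mul_sum]
      refine sum_le_sum fun w _ => ?_
      have := mul_le_mul_of_nonneg_left (hmax w (mem_univ _))
        (mul_nonneg (a_nonneg (G := G) u w) (hx w).le)
      nlinarith
    have b3 := mul_le_mul_of_nonneg_right b1 hs0
    rw [hW, ← add_sum_erase _ _ (mem_univ h), ← add_sum_erase _ (fun v => x v ^ 4) (mem_univ h),
      ← hT]
    rw [hc, sub_add_cancel] at hv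
    have b4 := hμ1 h
    have e : ((Fintype.card V : ℝ) - 1) * (1 + 2 / Fintype.card V) =
      (Fintype.card V : ℝ) - 1 + 2 * ((Fintype.card V : ℝ) - 1) / Fintype.card V := by ring
    rw [e]
    nlinarith

theorem Eig.main (h : Eig G U l) (hG : G.Connected) :
    ∑ v, ∑ i, ∑ j, (if l i = l j then U v i ^ 2 * U v j ^ 2 else 0) ≤
      ((Fintype.card V : ℝ) ^ 2 - 2 * Fintype.card V + 2) / Fintype.card V := by
  have := hG.nonempty
  have hp1 : ∀ v, ∑ i, U v i ^ 2 = 1 := fun v => by simpa [sq] using h.row v v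
  have hc1 : ∀ i, ∑ v, U v i ^ 2 = 1 := fun i => by simpa [sq] using h.col i i
  rcases (show Fintype.card V = 1 ∨ 2 ≤ Fintype.card V by
    have := Fintype.card_pos (α := V); omega) with hn | hn
  · have : ∑ v, ∑ i, ∑ j, (if l i = l j then U v i ^ 2 * U v j ^ 2 else 0) ≤ ∑ _v : V, (1 : ℝ) := by
      refine sum_le_sum fun v _ => ?_
      calc _ ≤ ∑ i, ∑ j, U v i ^ 2 * U v j ^ 2 :=
            sum_le_sum fun i _ => sum_le_sum fun j _ => by
              split_ifs
              · exact le_rfl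
              · positivity
        _ = 1 := by simp only [← mul_sum, hp1, mul_one]
    rw [sum_const, card_univ, hn] at this
    rw [hn]; norm_num at this ⊢; exact this
  obtain ⟨o, -, ho⟩ := exists_max_image univ l univ_nonempty
  have hρ : ∀ i, l i ≤ l o := fun i => ho i (mem_univ _)
  set ρ := l o with hρd
  have hpos : ∀ v, U v o ≠ 0 := fun v hv => by
    have := h.zero hG hρ (fun v => U v o) (h.eig o) hv
    have e := hc1 o
    simp [this] at e
  have hsimple : ∀ j, j ≠ o → l j ≠ ρ := fun j hj e => by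
    obtain ⟨v⟩ := hG.nonempty
    have := h.zero hG hρ (fun u => U v j * U u o - U v o * U u j) (fun u => by
      have a1 := h.eig o u
      have a2 := h.eig j u
      rw [e] at a2
      calc _ = U v j * ∑ w, G.adjMatrix ℝ u w * U w o - U v o * ∑ w, G.adjMatrix ℝ u w * U w j := by
            rw [mul_sum, mul_sum, ← sum_sub_distrib]; exact sum_congr rfl fun w _ => by ring
        _ = _ := by rw [a1, a2]; ring) (v := v) (by ring)
    have e1 : ∑ u, (U v j * U u o - U v o * U u j) * U u j = 0 :=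
      sum_eq_zero fun u _ => by rw [this u, zero_mul]
    have e2 : ∑ u, (U v j * U u o - U v o * U u j) * U u j =
        U v j * ∑ u, U u o * U u j - U v o * ∑ u, U u j * U u j := by
      rw [mul_sum, mul_sum, ← sum_sub_distrib]; exact sum_congr rfl fun w _ => by ring
    rw [e2, h.col, h.col, if_neg hj.symm, if_pos rfl] at e1
    exact hpos v (by linarith)
  have hd : ∀ v, 1 ≤ ∑ w, G.adjMatrix ℝ v w := fun v => by
    have : Nontrivial V := Fintype.one_lt_card_iff_nontrivial.1 hn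
    obtain ⟨w, hw⟩ := hG.preconnected.exists_adj_of_nontrivial v
    have := single_le_sum (f := fun u => G.adjMatrix ℝ v u) (fun u _ => a_nonneg v u) (mem_univ w)
    simpa [SimpleGraph.adjMatrix_apply, hw] using this
  obtain ⟨k1, k2⟩ := perron hd hn (fun v => |U v o|) ρ (fun v => abs_pos.2 (hpos v))
    (by simp only [sq_abs]; exact hc1 o) (h.abs hρ _ (h.eig o))
  simp only [sq_abs, show ∀ v, |U v o| ^ 4 = (U v o ^ 2) ^ 2 from fun v => by
    rw [← sq_abs (U v o)]; ring] at k2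
  set d : V → ℝ := fun v => ∑ w, G.adjMatrix ℝ v w with hdd
  have m1 : ∀ v, ∑ i, l i * U v i ^ 2 = 0 := fun v => by
    have := h.expandA (fun w => if w = v then 1 else 0) v
    simp only [mul_ite, mul_one, mul_zero, sum_ite_eq', mem_univ, if_true, a_diag] at this
    rw [this]; exact sum_congr rfl fun i _ => by ring
  have m2 : ∀ v, ∑ i, l i ^ 2 * U v i ^ 2 = d v := fun v => by
    have := h.expandA (fun w => G.adjMatrix ℝ v w) v
    simp only [a_sq] at this
    simp only [hdd]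
    rw [this]
    refine sum_congr rfl fun i _ => ?_
    rw [show ∑ w, U w i * G.adjMatrix ℝ v w = l i * U v i from by
      rw [← h.eig]; exact sum_congr rfl fun w _ => by ring]
    ring
  set T := univ.erase o with hT
  set R := ∑ v, d v - ρ ^ 2 with hR
  have hn' : (2 : ℝ) ≤ Fintype.card V := by exact_mod_cast hn
  have hR0 : 0 < R := by linarith
  have hRs : ∑ i ∈ T, l i ^ 2 = R := by
    have : ∑ i, l i ^ 2 = ∑ v, d v := by
      simp only [← m2]
      rw [sum_comm]
      exact sum_congr rfl fun i _ => by rw [← mul_sum, hc1, mul_one]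
    rw [hR, ← this, ← add_sum_erase _ _ (mem_univ o)]; ring
  have hv : ∀ v, R * ∑ i, ∑ j, (if l i = l j then U v i ^ 2 * U v j ^ 2 else 0) ≤
      R * ((U v o ^ 2) ^ 2 + (1 - U v o ^ 2) ^ 2) -
        ((1 - U v o ^ 2) * d v - ρ ^ 2 * U v o ^ 2) := fun v => by
    have s0 : ∑ i ∈ T, U v i ^ 2 = 1 - U v o ^ 2 := by
      rw [← hp1 v, ← add_sum_erase _ _ (mem_univ o)]; ring
    have s1 : ∑ i ∈ T, l i * U v i ^ 2 = -(ρ * U v o ^ 2) := by
      have := m1 v
      rw [← add_sum_erase _ _ (mem_univ o)] at this; linarith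
    have s2 : ∑ i ∈ T, l i ^ 2 * U v i ^ 2 = d v - ρ ^ 2 * U v o ^ 2 := by
      rw [← m2 v, ← add_sum_erase _ _ (mem_univ o)]; ring
    have s3 : ∑ i, ∑ j, (if l i = l j then U v i ^ 2 * U v j ^ 2 else 0) = (U v o ^ 2) ^ 2 +
        ∑ i ∈ T, ∑ j ∈ T, (if l i = l j then U v i ^ 2 * U v j ^ 2 else 0) := by
      rw [← add_sum_erase _ _ (mem_univ o), ← add_sum_erase _ _ (mem_univ o), if_pos rfl,
        sum_eq_zero fun j hj => if_neg (hsimple j (ne_of_mem_erase hj)).symm]
      congr 1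
      · ring
      · refine sum_congr rfl fun i hi => ?_
        rw [← add_sum_erase _ _ (mem_univ o), if_neg (hsimple i (ne_of_mem_erase hi)), zero_add]
    have s4 : ∑ i ∈ T, ∑ j ∈ T, R * (if l i = l j then U v i ^ 2 * U v j ^ 2 else 0) ≤
        ∑ i ∈ T, ∑ j ∈ T, (R * (U v i ^ 2 * U v j ^ 2) - (l i ^ 2 * U v i ^ 2 * U v j ^ 2 / 2
          + U v i ^ 2 * (l j ^ 2 * U v j ^ 2) / 2 - l i * U v i ^ 2 * (l j * U v j ^ 2))) := by
      refine sum_le_sum fun i hi => sum_le_sum fun j hj => ?_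
      split_ifs with e
      · rw [e]; apply le_of_eq; ring
      · have hij : i ≠ j := fun e' => e (by rw [e'])
        have a1 : l i ^ 2 + l j ^ 2 ≤ R := by
          rw [← hRs, ← sum_pair (f := fun u => l u ^ 2) hij]
          exact sum_le_sum_of_subset_of_nonneg
            (by intro x; simp only [mem_insert, mem_singleton]; rintro (rfl | rfl) <;> assumption)
            fun x _ _ => sq_nonneg _
        have a2 : (l i - l j) ^ 2 / 2 ≤ R := by nlinarith [sq_nonneg (l i + l j)]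
        have := mul_le_mul_of_nonneg_right a2 (show 0 ≤ U v i ^ 2 * U v j ^ 2 by positivity)
        nlinarith
    simp only [sum_sub_distrib, sum_add_distrib, ← sum_div, ← mul_sum, ← sum_mul, s0, s1, s2] at s4
    rw [s3]
    nlinarith
  have hsum := sum_le_sum fun v (_ : v ∈ univ) => hv v
  have e1 : ∑ v, (R * ((U v o ^ 2) ^ 2 + (1 - U v o ^ 2) ^ 2) -
        ((1 - U v o ^ 2) * d v - ρ ^ 2 * U v o ^ 2)) =
      R * (2 * ∑ v, (U v o ^ 2) ^ 2 + Fintype.card V - 3) + ∑ v, d v * U v o ^ 2 := by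
    have : ∀ v, R * ((U v o ^ 2) ^ 2 + (1 - U v o ^ 2) ^ 2) -
        ((1 - U v o ^ 2) * d v - ρ ^ 2 * U v o ^ 2) = 2 * R * (U v o ^ 2) ^ 2 + R
          - (2 * R - ρ ^ 2) * U v o ^ 2 - d v + d v * U v o ^ 2 := fun v => by ring
    simp only [this, sum_add_distrib, sum_sub_distrib, ← mul_sum, hc1, sum_const, card_univ,
      nsmul_eq_mul]
    rw [hR]; ring
  rw [← mul_sum, e1] at hsum
  set W := ∑ v, d v * U v o ^ 2
  set S := ∑ v, (U v o ^ 2) ^ 2
  set n : ℝ := (Fintype.card V : ℝ)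
  have hW0 : 0 ≤ W := sum_nonneg fun v _ => mul_nonneg (by linarith [hd v]) (sq_nonneg _)
  have f1 : W ≤ (n - 1) * (1 + 2 / n - 2 * S) := by linarith
  have f2 : 0 ≤ 1 + 2 / n - 2 * S := by
    by_contra hc
    nlinarith
  have f3 := mul_le_mul_of_nonneg_right k1 f2
  apply le_of_mul_le_mul_left _ hR0
  have e2 : (n ^ 2 - 2 * n + 2) / n = n - 2 + 2 / n := by field_simp
  rw [e2]
  nlinarith

end Pool.Agent.H.MP_582e4a_co
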